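import Mathlib

/-!
# Weighted Laplacians over the field with three elements and one more vertex
-/

set_option autoImplicit false

namespace T2h16.TE

open Finset

/-- the Laplacian of `χ` with the weights `e` -/
def lapl {n : ℕ} (e : Fin n → ZMod 3) (χ : Fin n → Fin n → ZMod 3) :
    Matrix (Fin n) (Fin n) (ZMod 3) :=
  Matrix.of fun j i => if j = i then -∑ l ∈ univ.erase j, e l * χ j l else e i * χ j i

theorem lapl_mulVec {n : ℕ} (e : Fin n → ZMod 3) (χ : Fin n → Fin n → ZMod 3)
    (v : Fin n → ZMod 3) (j : Fin n) :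
    ((lapl e χ).mulVec v) j = ∑ i, e i * χ j i * (v i - v j) := by
  unfold lapl Matrix.mulVec dotProduct
  simp only [Matrix.of_apply]
  rw [← Finset.add_sum_erase _ _ (Finset.mem_univ j), ← Finset.add_sum_erase _ _ (Finset.mem_univ j)]
  rw [if_pos rfl, sub_self, mul_zero, zero_add, neg_mul, Finset.sum_mul, ← Finset.sum_neg_distrib,
    ← Finset.sum_add_distrib]
  refine Finset.sum_congr rfl fun i hi => ?_
  rw [if_neg (Finset.ne_of_mem_erase hi).symm]
  ring

/-- the Laplacian only sees the entries off the diagonal, and is linear -/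
theorem lapl_smul {n : ℕ} {e : Fin n → ZMod 3} {χ χ' : Fin n → Fin n → ZMod 3} {s : ZMod 3}
    (h : ∀ i j, i ≠ j → χ' j i = s * χ j i) : lapl e χ' = s • lapl e χ := by
  ext j i
  unfold lapl
  rw [Matrix.smul_apply, Matrix.of_apply, Matrix.of_apply, smul_eq_mul]
  by_cases hij : j = i
  · rw [if_pos hij, if_pos hij, mul_neg, Finset.mul_sum]
    congr 1
    refine Finset.sum_congr rfl fun l hl => ?_
    rw [h l j (Finset.ne_of_mem_erase hl)]
    ring
  · rw [if_neg hij, if_neg hij, h i j (Ne.symm hij)]
    ring

/-- one more vertex -/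
theorem ker_iff_det {n : ℕ} {e : Fin n → ZMod 3} {χ : Fin n → Fin n → ZMod 3}
    (hs : ∀ i j, i ≠ j → χ i j = χ j i) {e' : ZMod 3} (he' : e' ≠ 0) (x : Fin n → ZMod 3)
    (ee : Option (Fin n) → ZMod 3) (he0 : ee none = e') (hee : ∀ i, ee (some i) = e i)
    (cc : Option (Fin n) → Option (Fin n) → ZMod 3)
    (h1 : ∀ i j, cc (some j) (some i) = χ j i) (h2 : ∀ j, cc (some j) none = x j)
    (h3 : ∀ j, cc none (some j) = x j) :
    (∀ v : Option (Fin n) → ZMod 3, (∀ j, ∑ i, ee i * cc j i * (v i - v j) = 0) →
      ∀ i j, v i = v j) ↔ (lapl e χ - Matrix.diagonal fun j => e' * x j).det ≠ 0 := by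
  constructor
  · intro h hdet
    obtain ⟨w, hw0, hw⟩ := Matrix.exists_mulVec_eq_zero_iff.2 hdet
    have hrow : ∀ j, ∑ i, e i * χ j i * (w i - w j) - e' * x j * w j = 0 := by
      intro j
      have h4 := congrFun hw j
      rw [Matrix.sub_mulVec, Pi.sub_apply, lapl_mulVec, Matrix.mulVec_diagonal, Pi.zero_apply] at h4
      exact h4
    have hanti : ∑ j, ∑ i, e j * (e i * χ j i * (w i - w j)) = 0 := by
      have h5 : ∑ j, ∑ i, e j * (e i * χ j i * (w i - w j)) =
          -∑ j, ∑ i, e j * (e i * χ j i * (w i - w j)) := by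
        conv_lhs => rw [Finset.sum_comm]
        rw [← Finset.sum_neg_distrib]
        refine Finset.sum_congr rfl fun i _ => ?_
        rw [← Finset.sum_neg_distrib]
        refine Finset.sum_congr rfl fun j _ => ?_
        by_cases hij : i = j
        · rw [hij]
          ring
        · rw [hs j i (Ne.symm hij)]
          ring
      exact (by decide : ∀ s : ZMod 3, s = -s → s = 0) _ h5
    have hlast : ∑ j, e j * x j * w j = 0 := by
      have h6 : ∑ j, e j * (∑ i, e i * χ j i * (w i - w j) - e' * x j * w j) = 0 :=
        Finset.sum_eq_zero fun j _ => by rw [hrow j, mul_zero]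
      simp only [mul_sub, Finset.sum_sub_distrib, Finset.mul_sum] at h6 hanti
      rw [hanti, zero_sub, neg_eq_zero] at h6
      have h7 : e' * ∑ j, e j * x j * w j = 0 := by
        rw [Finset.mul_sum, ← h6]
        exact Finset.sum_congr rfl fun j _ => by ring
      exact (mul_eq_zero.1 h7).resolve_left he'
    have h8 := h (fun o => o.elim 0 w) (by
      intro j
      rw [Fintype.sum_option, he0]
      cases j with
      | none =>
        simp only [Option.elim_none, Option.elim_some, sub_self, mul_zero, zero_add, hee, h3,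
          sub_zero]
        exact hlast
      | some j =>
        simp only [Option.elim_none, Option.elim_some, hee, h1, h2, zero_sub]
        rw [← hrow j]
        ring)
    apply hw0
    funext i
    exact h8 (some i) none
  · intro hdet v hv
    have h0 : (fun j : Fin n => v (some j) - v none) = 0 := by
      apply Matrix.eq_zero_of_mulVec_eq_zero hdet
      funext j
      rw [Matrix.sub_mulVec, Pi.sub_apply, lapl_mulVec, Matrix.mulVec_diagonal, Pi.zero_apply]
      have h4 := hv (some j)
      rw [Fintype.sum_option, he0, h2] at h4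
      simp only [hee, h1] at h4
      have h5 : ∑ i, e i * χ j i * (v (some i) - v none - (v (some j) - v none)) =
          ∑ i, e i * χ j i * (v (some i) - v (some j)) :=
        Finset.sum_congr rfl fun i _ => by ring
      rw [h5]
      linear_combination h4
    have h1 : ∀ i, v i = v none := by
      intro i
      cases i with
      | none => rfl
      | some i => exact sub_eq_zero.1 (congrFun h0 i)
    intro i j
    rw [h1 i, h1 j]

/-- counting -/
theorem card_ratio {α : Type*} [DecidableEq α] {n : ℕ} {π : Fin n → α}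
    (hinj : Function.Injective π) (P : Finset α) (hP : P = univ.image π) (hm : ∀ i, π i ∈ P)
    {s : ZMod 3} (hs : s ≠ 0) (G : (Fin n → ZMod 3) → Prop) (c : ZMod 3) :
    Nat.card {x : (P → ZMod 3) × ZMod 3 // G (fun i => s * x.1 ⟨π i, hm i⟩) ∧ x.2 = c} =
      Nat.card {u : Fin n → ZMod 3 // G u} := by
  have hcard : P.card = n := by
    rw [hP, Finset.card_image_of_injective _ hinj, Finset.card_univ, Fintype.card_fin]
  have hbij : Function.Bijective (fun (x : P → ZMod 3) (i : Fin n) => s * x ⟨π i, hm i⟩) := by
    rw [Fintype.bijective_iff_injective_and_card]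
    constructor
    · intro x y hxy
      funext q
      obtain ⟨q, hq⟩ := q
      have hq' := hq
      rw [hP, Finset.mem_image] at hq'
      obtain ⟨i, -, rfl⟩ := hq'
      exact mul_left_cancel₀ hs (congrFun hxy i)
    · rw [Fintype.card_fun, Fintype.card_fun, Fintype.card_coe, hcard, Fintype.card_fin]
  refine Nat.card_congr (Equiv.trans
    { toFun := fun x => (⟨x.1.1, x.2.1⟩ :
        {y : P → ZMod 3 // G (fun i => s * y ⟨π i, hm i⟩)})
      invFun := fun y => ⟨(y.1, c), y.2, rfl⟩
      left_inv := fun x => by
        apply Subtype.ext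
        exact Prod.ext rfl x.2.2.symm
      right_inv := fun y => rfl }
    ((Equiv.ofBijective _ hbij).subtypeEquiv fun y => Iff.rfl))

end T2h16.TE
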