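import Pool.Agent.T2h16.TQ.Law
import Pool.Agent.T2h16.TE.Mat

/-!
# The proportion of the Eisenstein primes with given symbols
-/

set_option autoImplicit false
set_option linter.unusedSectionVars false

open scoped Classical

namespace T2h16.TE

open Finset Filter Topology
open Pool.Agent.Y692.QS (Ei w nr nr_nonneg)
open Pool.Agent.Y715.T.Rec (cs nn)
open Pool.Agent.Y715.T.RecG (Pq)
open Q283.TC (NT HH pq_eq_of_dvd)
open T2h16.TT (Ind indep exists_dat cs_w_all)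
open T2h16.TQ (dens2)

/-- the proportion of the primary primes with given symbols -/
theorem prop3 {P : Finset Ei} (hI : Ind P) (Q Q₀ : (P → ZMod 3) × ZMod 3 → Prop)
    (T T₀ : Ei → Prop)
    (hT : ∀ π, Pq π → (∀ q ∈ P, ¬ π ∣ q) → (T π ↔ Q (fun q : P => cs π q, cs π w)))
    (hT₀ : ∀ π, Pq π → (∀ q ∈ P, ¬ π ∣ q) → (T₀ π ↔ Q₀ (fun q : P => cs π q, cs π w)))
    (h0 : Nat.card {x : (P → ZMod 3) × ZMod 3 // Q₀ x} ≠ 0) :
    Tendsto (fun X : ℕ => (NT T X : ℝ) / (NT T₀ X : ℝ)) atTop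
      (𝓝 ((Nat.card {x : (P → ZMod 3) × ZMod 3 // Q x} : ℝ) /
        (Nat.card {x : (P → ZMod 3) × ZMod 3 // Q₀ x} : ℝ))) := by
  obtain ⟨L, hL, hN, hG, ⟨D⟩⟩ := exists_dat P hI.w0 (k := 1) le_rfl
  have h1 := dens2 D.toDat hI Q T fun p _ _ π hπ _ hd => hT π hπ hd
  have h2 := dens2 D.toDat hI Q₀ T₀ fun p _ _ π hπ _ hd => hT₀ π hπ hd
  have hK : (0 : ℝ) < Nat.card (HH D.Z) := by
    have := Nat.card_pos (α := HH D.Z)
    exact_mod_cast this
  have hG : (0 : ℝ) < Nat.card Gal(L/ℚ) := by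
    have := Nat.card_pos (α := Gal(L/ℚ))
    exact_mod_cast this
  have h00 : (0 : ℝ) < Nat.card {x : (P → ZMod 3) × ZMod 3 // Q₀ x} := by
    exact_mod_cast Nat.pos_of_ne_zero h0
  have hpos : (0 : ℝ) < 2 * (Nat.card (HH D.Z) : ℝ) / (Nat.card Gal(L/ℚ) : ℝ) *
      ((Nat.card {x : (P → ZMod 3) × ZMod 3 // Q₀ x} : ℝ) / 3 ^ (P.card + 1)) := by positivity
  have h6 := h1.div h2 hpos.ne'
  have h7 : 2 * (Nat.card (HH D.Z) : ℝ) / (Nat.card Gal(L/ℚ) : ℝ) *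
      ((Nat.card {x : (P → ZMod 3) × ZMod 3 // Q x} : ℝ) / 3 ^ (P.card + 1)) /
        (2 * (Nat.card (HH D.Z) : ℝ) / (Nat.card Gal(L/ℚ) : ℝ) *
      ((Nat.card {x : (P → ZMod 3) × ZMod 3 // Q₀ x} : ℝ) / 3 ^ (P.card + 1))) =
      (Nat.card {x : (P → ZMod 3) × ZMod 3 // Q x} : ℝ) /
        (Nat.card {x : (P → ZMod 3) × ZMod 3 // Q₀ x} : ℝ) := by
    field_simp
  rw [h7] at h6
  refine h6.congr' ?_
  filter_upwards [eventually_ge_atTop 2] with X hX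
  have hpc : (Nat.primeCounting X : ℝ) ≠ 0 := by
    have : 0 < Nat.primeCounting X := by
      have h := Nat.monotone_primeCounting hX
      have h2 : Nat.primeCounting 2 = 1 := by decide
      omega
    positivity
  simp only [Pi.div_apply]
  rw [div_div_div_cancel_right₀ hpc]

/-- the class of the norm modulo `9` -/
theorem cls_iff {ρ : Ei} (hρ : Pq ρ) {r : ℕ} (hr : r = 1 ∨ r = 4 ∨ r = 7) :
    (9 : ℤ) ∣ nr ρ - r ↔ cs ρ w = (((r - 1) / 3 : ℕ) : ZMod 3) := by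
  have h1 : (3 : ℤ) ∣ nr ρ - 1 := by
    obtain ⟨c, hc⟩ := hρ.three
    have e : ρ = 1 + 3 * c := by rw [← hc]; ring
    have a1 : QuadraticAlgebra.re (1 : Ei) = 1 := rfl
    have a2 : QuadraticAlgebra.im (1 : Ei) = 0 := rfl
    have a3 : QuadraticAlgebra.re (3 : Ei) = 3 := rfl
    have a4 : QuadraticAlgebra.im (3 : Ei) = 0 := rfl
    have e1 : ρ.re = 1 + 3 * c.re := by
      have := congrArg QuadraticAlgebra.re e
      rw [this]
      simp [a1, a3, a4]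
    have e2 : ρ.im = 3 * c.im := by
      have := congrArg QuadraticAlgebra.im e
      rw [this]
      simp [a2, a3, a4]
    unfold nr
    rw [e1, e2]
    refine ⟨2 * c.re + 3 * c.re ^ 2 - c.im - 3 * c.re * c.im + 3 * c.im ^ 2, ?_⟩
    ring
  have h0 := nr_nonneg ρ
  rw [cs_w_all hρ, ZMod.natCast_eq_natCast_iff']
  unfold nn
  obtain ⟨m, hm⟩ : ∃ m : ℕ, nr ρ = m := ⟨(nr ρ).natAbs, by omega⟩
  rw [hm] at h1 ⊢
  rw [Int.natAbs_natCast]
  rcases hr with rfl | rfl | rfl <;> omega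

/-- **The proportion of the good primes.** -/
theorem dens {n : ℕ} {π : Fin n → Ei} (hπ : ∀ i, Pq (π i)) (hnd : ∀ i j, i ≠ j → ¬ π j ∣ π i)
    (A : Matrix (Fin n) (Fin n) (ZMod 3)) {s : ZMod 3} (hs : s ≠ 0) {r : ℕ}
    (hr : r = 1 ∨ r = 4 ∨ r = 7) (T : Ei → Prop)
    (hT : ∀ ρ, Pq ρ → (∀ i, ¬ ρ ∣ π i) → (T ρ ↔
      (A + Matrix.diagonal fun i => s * cs ρ (π i)).det ≠ 0 ∧ (9 : ℤ) ∣ nr ρ - r)) :
    Tendsto (fun X : ℕ => (NT T X : ℝ) / (NT (fun ρ => (9 : ℤ) ∣ nr ρ - r) X : ℝ)) atTop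
      (𝓝 ((Nat.card {u : Fin n → ZMod 3 // (A + Matrix.diagonal u).det ≠ 0} : ℝ) / 3 ^ n)) := by
  set P : Finset Ei := univ.image π with hP
  have hm : ∀ i, π i ∈ P := fun i => Finset.mem_image_of_mem π (mem_univ i)
  have hinj : Function.Injective π := by
    intro i j hij
    by_contra hne
    exact hnd i j hne (by rw [hij])
  have hI : Ind P := by
    apply indep
    · intro q hq
      obtain ⟨i, -, rfl⟩ := Finset.mem_image.1 hq
      exact (hπ i).prime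
    · intro q hq q' hq' hd
      obtain ⟨i, -, rfl⟩ := Finset.mem_image.1 hq
      obtain ⟨i', -, rfl⟩ := Finset.mem_image.1 hq'
      by_contra hne
      exact hnd i' i (fun h => hne (by rw [h])) hd
  set c : ZMod 3 := (((r - 1) / 3 : ℕ) : ZMod 3) with hc
  have hdiv : ∀ ρ : Ei, (∀ q ∈ P, ¬ ρ ∣ q) → ∀ i, ¬ ρ ∣ π i := fun ρ h i => h _ (hm i)
  have h1 := prop3 hI
    (fun x => (A + Matrix.diagonal fun i => s * x.1 ⟨π i, hm i⟩).det ≠ 0 ∧ x.2 = c)
    (fun x => True ∧ x.2 = c) T (fun ρ => (9 : ℤ) ∣ nr ρ - r)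
    (fun ρ hρ hd => by rw [hT ρ hρ (hdiv ρ hd), cls_iff hρ hr])
    (fun ρ hρ _ => by rw [cls_iff hρ hr, true_and])
    (by
      have hne : Nonempty {x : (P → ZMod 3) × ZMod 3 // True ∧ x.2 = c} :=
        ⟨⟨(0, c), trivial, rfl⟩⟩
      exact Nat.card_pos.ne')
  have h2 := card_ratio hinj P hP hm hs (fun u => (A + Matrix.diagonal u).det ≠ 0) c
  have h3 := card_ratio hinj P hP hm hs (fun _ => True) c
  have h4 : Nat.card {u : Fin n → ZMod 3 // True} = 3 ^ n := by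
    have : Nat.card (Fin n → ZMod 3) = 3 ^ n := by
      rw [Nat.card_fun]
      simp
    rw [← this]
    exact Nat.card_congr (Equiv.subtypeUnivEquiv fun _ => trivial)
  rw [h2, h3, h4] at h1
  have h5 : ((3 ^ n : ℕ) : ℝ) = 3 ^ n := by push_cast; rfl
  rw [h5] at h1
  exact h1

end T2h16.TE
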