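import Pool.Agent.T2h16.TE.Dat
import Pool.Agent.T2h16.TE.Den
import Pool.Agent.T2h16.TT.Fin

/-!
# The density of the good prime twists of every cubic twist over the field of third roots of unity
-/

set_option autoImplicit false
set_option linter.unusedVariables false

open scoped Classical

namespace T2h16.TE

open NumberField Finset Filter Topology
open Pool.Agent.Y692.QS (Ei w nr)
open Pool.Agent.Y703.CT
open Pool.Agent.Y715.T.Rec (cs nn)
open Pool.Agent.Y715.T.RecG (Pq)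
open Pool.Agent.R419.KF
open Pool.Agent.Y696.CTK
open Pool.Agent.Y696.XK (img_ncard)
open Q283.TC (NT)
open T2h16.TT (card_diag det_cons count_lower)

/-- at least `2 ^ m` perturbations of the diagonal are singular -/
theorem card_zero (m : ℕ) (A : Matrix (Fin (m + 1)) (Fin (m + 1)) (ZMod 3)) :
    2 ^ m ≤ Nat.card {u : Fin (m + 1) → ZMod 3 // (A + Matrix.diagonal u).det = 0} := by
  set B := A.submatrix Fin.succ Fin.succ with hB
  refine (card_diag m B).trans ?_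
  have key : ∀ c d : ZMod 3, c ≠ 0 → ∃ t : ZMod 3, t * c + d = 0 := by decide
  choose t ht using key
  refine Nat.card_le_card_of_injective (fun x => ⟨Fin.cons
    (t (B + Matrix.diagonal x.1).det
      (A + Matrix.diagonal (Fin.cons 0 x.1 : Fin (m + 1) → ZMod 3)).det x.2) x.1, ?_⟩) ?_
  · rw [det_cons]
    exact ht _ _ x.2
  · rintro ⟨u, hu⟩ ⟨v, hv⟩ hab
    simp only [Subtype.mk.injEq] at hab
    obtain ⟨h3, h4⟩ := Fin.cons_inj.1 hab
    exact Subtype.ext h4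

theorem count_upper {n : ℕ} (hn : n ≠ 0) (A : Matrix (Fin n) (Fin n) (ZMod 3)) :
    (Nat.card {u : Fin n → ZMod 3 // (A + Matrix.diagonal u).det ≠ 0} : ℝ) / 3 ^ n ≤
      1 - (2 / 3 : ℝ) ^ n / 2 := by
  obtain ⟨m, rfl⟩ := Nat.exists_eq_succ_of_ne_zero hn
  have h1 := card_zero m A
  have h2 : Nat.card {u : Fin (m + 1) → ZMod 3 // (A + Matrix.diagonal u).det ≠ 0} +
      Nat.card {u : Fin (m + 1) → ZMod 3 // (A + Matrix.diagonal u).det = 0} = 3 ^ (m + 1) := by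
    have h3 : Nat.card (Fin (m + 1) → ZMod 3) = 3 ^ (m + 1) := by
      rw [Nat.card_fun]
      simp
    rw [← h3, ← Nat.card_sum]
    refine Nat.card_congr ((Equiv.sumComm _ _).trans (Equiv.sumCompl
      (fun u : Fin (m + 1) → ZMod 3 => (A + Matrix.diagonal u).det = 0)))
  have h4 : (Nat.card {u : Fin (m + 1) → ZMod 3 // (A + Matrix.diagonal u).det ≠ 0} : ℝ) +
      2 ^ m ≤ 3 ^ (m + 1) := by
    have h5 : Nat.card {u : Fin (m + 1) → ZMod 3 // (A + Matrix.diagonal u).det ≠ 0} + 2 ^ m ≤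
        3 ^ (m + 1) := by omega
    exact_mod_cast h5
  rw [div_le_iff₀ (by positivity), div_pow]
  have h6 : (1 - (2 : ℝ) ^ (m + 1) / 3 ^ (m + 1) / 2) * 3 ^ (m + 1) = 3 ^ (m + 1) - 2 ^ m := by
    have : (3 : ℝ) ^ (m + 1) ≠ 0 := by positivity
    field_simp
    ring
  refine le_trans ?_ h6.ge
  linarith

/-- a change of the sign of the diagonal and a factor -/
theorem card_smul {n : ℕ} (A : Matrix (Fin n) (Fin n) (ZMod 3)) {ε : ZMod 3} (hε : ε ≠ 0) :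
    Nat.card {u : Fin n → ZMod 3 // (ε • A + Matrix.diagonal u).det ≠ 0} =
      Nat.card {u : Fin n → ZMod 3 // (A + Matrix.diagonal u).det ≠ 0} := by
  have hε2 : ε * ε = 1 := (by decide : ∀ s : ZMod 3, s ≠ 0 → s * s = 1) ε hε
  have hdet : ∀ u : Fin n → ZMod 3, (ε • A + Matrix.diagonal u).det ≠ 0 ↔
      (A + Matrix.diagonal fun i => ε * u i).det ≠ 0 := by
    intro u
    have h1 : ε • A + Matrix.diagonal u = ε • (A + Matrix.diagonal fun i => ε * u i) := by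
      rw [smul_add]
      congr 1
      ext a b
      rw [Matrix.smul_apply, Matrix.diagonal_apply, Matrix.diagonal_apply, smul_eq_mul]
      split_ifs with hab
      · rw [← mul_assoc, hε2, one_mul]
      · rw [mul_zero]
    rw [h1, Matrix.det_smul, Fintype.card_fin]
    exact ⟨fun h1 h2 => h1 (by rw [h2, mul_zero]), fun h1 => mul_ne_zero (pow_ne_zero _ hε) h1⟩
  let E : (Fin n → ZMod 3) ≃ (Fin n → ZMod 3) :=
    { toFun := fun u i => ε * u i
      invFun := fun u i => ε * u i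
      left_inv := fun u => by
        funext i
        show ε * (ε * u i) = u i
        rw [← mul_assoc, hε2, one_mul]
      right_inv := fun u => by
        funext i
        show ε * (ε * u i) = u i
        rw [← mul_assoc, hε2, one_mul] }
  exact Nat.card_congr (E.subtypeEquiv fun u => hdet u)

/-- the primary primes whose norm is `r` modulo `9` -/
def NP {K : Type} [Field K] [NumberField K] (r : ℕ) (ρ : 𝓞 K) : Prop :=
  Prime ρ ∧ (3 : 𝓞 K) ∣ ρ - 1 ∧ (9 : ℤ) ∣ Algebra.norm ℤ ρ - r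

theorem nine_iff {K : Type} [Field K] [NumberField K] {D ρ : 𝓞 K} {r m : ℕ}
    (h : (9 : ℤ) ∣ Algebra.norm ℤ ρ - r) :
    (9 : ℤ) ∣ Algebra.norm ℤ (D * ρ ^ m) - 1 ↔ (9 : ℤ) ∣ Algebra.norm ℤ D * r ^ m - 1 := by
  rw [map_mul, map_pow]
  have h1 : (9 : ℤ) ∣ Algebra.norm ℤ ρ ^ m - (r : ℤ) ^ m := h.trans (sub_dvd_pow_sub_pow _ _ _)
  have h2 : Algebra.norm ℤ D * Algebra.norm ℤ ρ ^ m - 1 =
      (Algebra.norm ℤ D * r ^ m - 1) + Algebra.norm ℤ D * (Algebra.norm ℤ ρ ^ m - (r : ℤ) ^ m) := by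
    ring
  rw [h2]
  exact dvd_add_left (Dvd.dvd.mul_left h1 _)

/-- **The final statement.** -/
theorem final4 (K : Type) [Field K] [NumberField K] [IsCyclotomicExtension {3} ℚ K]
    (D : 𝓞 K) (h3 : (3 : 𝓞 K) ∣ D - 1) (hcf : ∀ x : 𝓞 K, x ^ 3 ∣ D → IsUnit x)
    (m : ℕ) (hm : m = 1 ∨ m = 2) (r : ℕ) (hr : r = 1 ∨ r = 4 ∨ r = 7)
    (h9 : ¬ (9 : ℤ) ∣ Algebra.norm ℤ D * r ^ m - 1) :
    (∃ (ω : 𝓞 K) (n : ℕ) (π : Fin n → 𝓞 K) (e : Fin n → ZMod 3) (χ : Fin n → Fin n → ZMod 3),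
      ω ^ 2 + ω + 1 = 0 ∧ IsFactE ω D n π e χ) ∧
    ∀ (ω : 𝓞 K) (n : ℕ) (π : Fin n → 𝓞 K) (e : Fin n → ZMod 3) (χ : Fin n → Fin n → ZMod 3),
      ω ^ 2 + ω + 1 = 0 → IsFactE ω D n π e χ →
      (∀ ρ : 𝓞 K, NP r ρ → ¬ ρ ∣ D → Law3 (D * ρ ^ m) ∧ ∃ χ' : Fin n → ZMod 3,
        (∀ k, π k ∣ ρ ^ (((Algebra.norm ℤ (π k)).natAbs - 1) / 3) - ω ^ (χ' k).val) ∧
        (Tri (D * ρ ^ m) ↔
          (lapl e χ - Matrix.diagonal fun k => (m : ZMod 3) * χ' k).det ≠ 0)) ∧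
      Tendsto (fun X : ℕ =>
        ({ρ : 𝓞 K | Algebra.norm ℤ ρ ≤ X ∧ NP r ρ ∧ Law3 (D * ρ ^ m) ∧ Tri (D * ρ ^ m)}.ncard : ℝ) /
          ({ρ : 𝓞 K | Algebra.norm ℤ ρ ≤ X ∧ NP r ρ}.ncard : ℝ)) atTop
        (𝓝 ((Nat.card {u : Fin n → ZMod 3 // (lapl e χ + Matrix.diagonal u).det ≠ 0} : ℝ) /
          3 ^ n)) ∧
      (2 / 3 : ℝ) ^ n ≤
        (Nat.card {u : Fin n → ZMod 3 // (lapl e χ + Matrix.diagonal u).det ≠ 0} : ℝ) / 3 ^ n ∧
      (n ≠ 0 → (Nat.card {u : Fin n → ZMod 3 // (lapl e χ + Matrix.diagonal u).det ≠ 0} : ℝ) /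
        3 ^ n ≤ 1 - (2 / 3 : ℝ) ^ n / 2) := by
  obtain ⟨⟨j, hj⟩, -⟩ := Pool.Agent.Y455.CTK.jex K
  have hmv : ((m : ZMod 3)).val = m := by rcases hm with rfl | rfl <;> rfl
  have hm0 : (m : ZMod 3) ≠ 0 := by rcases hm with rfl | rfl <;> decide
  refine ⟨fact_of j hj h3 hcf, fun ω n π e χ hω h => ?_⟩
  have hall : ∀ ρ : 𝓞 K, NP r ρ → ¬ ρ ∣ D → Law3 (D * ρ ^ m) ∧ ∃ χ' : Fin n → ZMod 3,
        (∀ k, π k ∣ ρ ^ (((Algebra.norm ℤ (π k)).natAbs - 1) / 3) - ω ^ (χ' k).val) ∧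
        (∀ k, ρ ∣ (π k) ^ (((Algebra.norm ℤ ρ).natAbs - 1) / 3) - ω ^ (χ' k).val) ∧
        (Tri (D * ρ ^ m) ↔
          (lapl e χ - Matrix.diagonal fun k => (m : ZMod 3) * χ' k).det ≠ 0) := by
    rintro ρ ⟨hρ, hρ3, hρ9⟩ hnd
    have h9' : ¬ (9 : ℤ) ∣ Algebra.norm ℤ (D * ρ ^ ((m : ZMod 3)).val) - 1 := by
      rw [hmv, nine_iff hρ9]
      exact h9
    have h1 := law_K j hj h hρ hρ3 hnd hm0 h9'
    obtain ⟨χ', h2, h4, h5⟩ := crit_K j hj hω h hρ hρ3 hnd hm0 h9'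
    rw [hmv] at h1 h5
    exact ⟨h1, χ', h2, h4, h5⟩
  refine ⟨fun ρ hρ hnd => ?_, ?_, count_lower _, fun hn => count_upper hn _⟩
  · obtain ⟨h1, χ', h2, -, h5⟩ := hall ρ hρ hnd
    exact ⟨h1, χ', h2, h5⟩
  · obtain ⟨ε, hε, he1, he2⟩ := eps j hj hω
    obtain ⟨hdt, hpD⟩ := Pool.Agent.R419.KF.fact_dt j h
    have hmat := mat_eq j he1 h
    have hnp : ∀ ρ : Ei, NP r (j ρ) ↔ Pq ρ ∧ (9 : ℤ) ∣ nr ρ - r := by
      intro ρ
      unfold NP
      rw [hj, ← and_assoc]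
      refine and_congr_left fun _ => ?_
      constructor
      · rintro ⟨a, b⟩
        have := pq_symm j a b
        rwa [RingEquiv.symm_apply_apply] at this
      · rintro ⟨a, b⟩
        refine ⟨(MulEquiv.prime_iff (j : Ei ≃* 𝓞 K)).2 a, ?_⟩
        have h1 := map_dvd j b
        rwa [map_sub, map_one, map_ofNat] at h1
    have e1 : ∀ X : ℕ, {ρ : 𝓞 K | Algebra.norm ℤ ρ ≤ X ∧ NP r ρ}.ncard =
        NT (fun ρ => (9 : ℤ) ∣ nr ρ - r) X := by
      intro X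
      have h1 := img_ncard j hj X (fun ρ => Pq ρ ∧ (9 : ℤ) ∣ nr ρ - r) (NP r)
        fun ρ => (hnp ρ).symm
      rw [h1]
      unfold NT
      congr 1
      ext ρ
      simp only [Set.mem_ofPred_eq]
      tauto
    set T : Ei → Prop := fun ρ => (9 : ℤ) ∣ nr ρ - r ∧ Law3 (D * (j ρ) ^ m) ∧ Tri (D * (j ρ) ^ m)
      with hT
    have e2 : ∀ X : ℕ, {ρ : 𝓞 K | Algebra.norm ℤ ρ ≤ X ∧ NP r ρ ∧ Law3 (D * ρ ^ m) ∧
        Tri (D * ρ ^ m)}.ncard = NT T X := by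
      intro X
      have h1 := img_ncard j hj X (fun ρ => Pq ρ ∧ T ρ)
        (fun ρ => NP r ρ ∧ Law3 (D * ρ ^ m) ∧ Tri (D * ρ ^ m))
        fun ρ => by
          rw [hnp, hT]
          exact and_assoc.symm
      rw [h1]
      unfold NT
      congr 1
      ext ρ
      simp only [Set.mem_ofPred_eq]
      tauto
    simp only [e1, e2]
    have hndD : ∀ ρ : Ei, Pq ρ → (∀ i, ¬ ρ ∣ j.symm (π i)) → ¬ j ρ ∣ D := by
      intro ρ hρ hnd hd
      rw [h.2.1] at hd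
      have hpr : Prime (j ρ) := (MulEquiv.prime_iff (j : Ei ≃* 𝓞 K)).2 hρ.prime
      obtain ⟨i, -, hi⟩ := hpr.exists_mem_finset_dvd hd
      have h1 := hpr.dvd_of_dvd_pow hi
      apply hnd i
      have h2 := map_dvd j.symm h1
      rwa [RingEquiv.symm_apply_apply] at h2
    have h6 := dens (π := fun i => j.symm (π i)) hdt.pq hdt.nd (mat (fun i => j.symm (π i)) e)
      (s := -(m : ZMod 3)) (neg_ne_zero.2 hm0) hr T (by
        intro ρ hρ hnd
        have hk : NP r (j ρ) ↔ (9 : ℤ) ∣ nr ρ - r := by rw [hnp, and_iff_right hρ]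
        have h10 : (mat (fun i => j.symm (π i)) e + Matrix.diagonal fun i =>
            -(m : ZMod 3) * cs ρ (j.symm (π i))) = mat (fun i => j.symm (π i)) e -
              Matrix.diagonal fun i => (m : ZMod 3) * cs ρ (j.symm (π i)) := by
          rw [sub_eq_add_neg, Matrix.diagonal_neg]
          congr 2
          funext i
          ring
        rw [h10, hT]
        constructor
        · rintro ⟨h11, h12, h13⟩
          refine ⟨?_, h11⟩
          have h9' : ¬ (9 : ℤ) ∣ nr (pD (fun i => j.symm (π i)) e * ρ ^ ((m : ZMod 3)).val) - 1 := by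
            rw [hpD, hmv, ← hj, map_mul, map_pow, RingEquiv.apply_symm_apply,
              nine_iff (r := r) (by rw [hj]; exact h11)]
            exact h9
          have h14 := tri_po j hdt hρ hnd hm0 h9'
          rw [hpD, hmv, map_mul, map_pow, RingEquiv.apply_symm_apply] at h14
          exact h14.1 h13
        · rintro ⟨h11, h12⟩
          have h9' : ¬ (9 : ℤ) ∣ nr (pD (fun i => j.symm (π i)) e * ρ ^ ((m : ZMod 3)).val) - 1 := by
            rw [hpD, hmv, ← hj, map_mul, map_pow, RingEquiv.apply_symm_apply,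
              nine_iff (r := r) (by rw [hj]; exact h12)]
            exact h9
          have h14 := tri_po j hdt hρ hnd hm0 h9'
          rw [hpD, hmv, map_mul, map_pow, RingEquiv.apply_symm_apply] at h14
          exact ⟨h12, (hall (j ρ) (hk.2 h12) (hndD ρ hρ hnd)).1, h14.2 h11⟩)
    rw [hmat, card_smul _ hε] at h6
    exact h6

end T2h16.TE
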