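import Pool.Agent.R419.KF.Fin3
import Pool.Agent.T2h16.TE.Mat

/-!
# The twists by one more Eisenstein prime
-/

set_option autoImplicit false
set_option linter.unusedVariables false
set_option linter.unusedSectionVars false

open scoped Classical

namespace T2h16.TE

open NumberField Finset
open Pool.Agent.Y692.QS (Ei w nr)
open Pool.Agent.Y703.CT
open Pool.Agent.Y715.T.Rec (cs nn)
open Pool.Agent.Y715.T.RecG (Pq)
open Pool.Agent.R419.KF
open Pool.Agent.Y696.CTK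
open Pool.Agent.Y699.E (rec_all eq_of_dvd)

/-- the primes with the new prime -/
def po {n : ℕ} (π : Fin n → Ei) (ρ : Ei) : Option (Fin n) → Ei := fun o => o.elim ρ π

/-- the exponents with the new one -/
def eo {n : ℕ} (e : Fin n → ZMod 3) (e' : ZMod 3) : Option (Fin n) → ZMod 3 := fun o => o.elim e' e

section
variable {n : ℕ} {π : Fin n → Ei} {e : Fin n → ZMod 3} {ρ : Ei} {e' : ZMod 3}

theorem dt_po (h : Dt π e) (hρ : Pq ρ) (hnd : ∀ i, ¬ ρ ∣ π i) (he : e' ≠ 0) :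
    Dt (po π ρ) (eo e e') := by
  refine ⟨fun o => ?_, fun a b hab => ?_, fun o => ?_⟩
  · cases o with
    | none => exact hρ
    | some i => exact h.pq i
  · cases a with
    | none =>
      cases b with
      | none => exact absurd rfl hab
      | some j =>
        intro hd
        have h1 : π j ∣ ρ := hd
        exact hnd j (by rw [eq_of_dvd (h.pq j) hρ h1])
    | some i =>
      cases b with
      | none => exact hnd i
      | some j => exact h.nd i j fun h1 => hab (by rw [h1])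
  · cases o with
    | none => exact he
    | some i => exact h.e0 i

theorem pD_po : pD (po π ρ) (eo e e') = pD π e * ρ ^ e'.val := by
  unfold pD
  rw [Fintype.prod_option, mul_comm]
  rfl

/-- the matrix of the symbols -/
noncomputable def mat (π : Fin n → Ei) (e : Fin n → ZMod 3) : Matrix (Fin n) (Fin n) (ZMod 3) :=
  lapl e fun j i => cs (π j) (π i)

theorem ker_po (h : Dt π e) (hρ : Pq ρ) (hnd : ∀ i, ¬ ρ ∣ π i) (he : e' ≠ 0) :
    Ker (po π ρ) (eo e e') ↔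
      (mat π e - Matrix.diagonal fun j => e' * cs ρ (π j)).det ≠ 0 :=
  ker_iff_det (fun i j hij => rec_all (π j) (π i) (h.pq j) (h.pq i) (h.nd j i hij.symm)) he
    (fun j => cs ρ (π j)) (eo e e') rfl (fun _ => rfl) (fun a b => cs (po π ρ a) (po π ρ b))
    (fun _ _ => rfl) (fun j => (rec_all (π j) ρ (h.pq j) hρ (hnd j)).symm) (fun _ => rfl)

variable {K : Type} [Field K] [NumberField K] (j : Ei ≃+* 𝓞 K)

theorem tri_po (h : Dt π e) (hρ : Pq ρ) (hnd : ∀ i, ¬ ρ ∣ π i) (he : e' ≠ 0)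
    (h9 : ¬ (9 : ℤ) ∣ nr (pD π e * ρ ^ e'.val) - 1) :
    Tri (j (pD π e * ρ ^ e'.val)) ↔
      (mat π e - Matrix.diagonal fun j => e' * cs ρ (π j)).det ≠ 0 := by
  have e1 : pD π e * ρ ^ e'.val = pD (po π ρ) (eo e e') := pD_po.symm
  rw [e1] at h9 ⊢
  rw [Pool.Agent.R419.KF.tri_iff j parts (dt_po h hρ hnd he) h9, ker_po h hρ hnd he]

theorem law_po [IsCyclotomicExtension {3} ℚ K] (h : Dt π e) (hρ : Pq ρ) (hnd : ∀ i, ¬ ρ ∣ π i)
    (he : e' ≠ 0) (h9 : ¬ (9 : ℤ) ∣ nr (pD π e * ρ ^ e'.val) - 1) :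
    Law3 (j (pD π e * ρ ^ e'.val)) := by
  have e1 : pD π e * ρ ^ e'.val = pD (po π ρ) (eo e e') := pD_po.symm
  rw [e1] at h9 ⊢
  exact Pool.Agent.R419.KF.law_of j parts (Pool.Agent.Y455.CTK.jex K).2 (dt_po h hρ hnd he) h9

end

/-! ### The symbols in `𝓞 K` -/

section
variable {K : Type} [Field K] [NumberField K] (j : Ei ≃+* 𝓞 K)

/-- the symbols for the two choices of the root of unity -/
theorem eps (hj : ∀ z : Ei, Algebra.norm ℤ (j z) = nr z) {ω : 𝓞 K} (hω : ω ^ 2 + ω + 1 = 0) :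
    ∃ ε : ZMod 3, ε ≠ 0 ∧ (∀ (π x : 𝓞 K) (c : ZMod 3), Prime π → (3 : 𝓞 K) ∣ π - 1 →
      π ∣ x ^ (((Algebra.norm ℤ π).natAbs - 1) / 3) - ω ^ c.val →
        cs (j.symm π) (j.symm x) = ε * c) ∧
      ∀ (π x : 𝓞 K), Prime π → (3 : 𝓞 K) ∣ π - 1 → ¬ π ∣ x →
        π ∣ x ^ (((Algebra.norm ℤ π).natAbs - 1) / 3) - ω ^ (ε * cs (j.symm π) (j.symm x)).val := by
  have hnn : ∀ π : 𝓞 K, nn (j.symm π) = ((Algebra.norm ℤ π).natAbs - 1) / 3 := by
    intro π
    unfold nn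
    rw [← hj, RingEquiv.apply_symm_apply]
  have hww : (w : Ei) ^ 2 + w + 1 = 0 := by decide
  have hfac : (ω - j w) * (ω - j (w ^ 2)) = 0 := by
    have e1 : (w : Ei) ^ 2 = -w - 1 := by linear_combination hww
    rw [e1, map_sub, map_neg, map_one]
    have e2 : (j w) ^ 2 + j w + 1 = 0 := by
      rw [← map_pow, ← map_one j, ← map_add, ← map_add, hww, map_zero]
    linear_combination hω - e2
  have hnd : ∀ π x : 𝓞 K, ¬ π ∣ x → ¬ j.symm π ∣ j.symm x := fun π x h h1 =>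
    h ((map_dvd_iff j.symm).1 h1)
  rcases mul_eq_zero.1 hfac with h4 | h4
  · refine ⟨1, one_ne_zero, fun π x c hp h3 hd => ?_, fun π x hp h3 hd => ?_⟩
    · rw [one_mul]
      have hpq := pq_symm j hp h3
      apply Pool.Agent.Y715.T.RecG.cs_of hpq.prime hpq.norm
      have h5 := map_dvd j.symm hd
      rw [sub_eq_zero.1 h4, map_sub, map_pow, map_pow, RingEquiv.symm_apply_apply, ← hnn π] at h5
      exact h5
    · rw [one_mul]
      have hpq := pq_symm j hp h3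
      have h5 := map_dvd j (Pool.Agent.Y715.T.RecG.cs_spec hpq.prime hpq.norm (hnd π x hd))
      rw [map_sub, map_pow, map_pow, RingEquiv.apply_symm_apply, RingEquiv.apply_symm_apply,
        hnn π, ← sub_eq_zero.1 h4] at h5
      exact h5
  · refine ⟨-1, by decide, fun π x c hp h3 hd => ?_, fun π x hp h3 hd => ?_⟩
    · rw [neg_one_mul]
      have hpq := pq_symm j hp h3
      apply Pool.Agent.Y715.T.RecG.cs_of hpq.prime hpq.norm
      have h5 := map_dvd j.symm hd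
      rw [sub_eq_zero.1 h4, map_sub, map_pow, map_pow, RingEquiv.symm_apply_apply, ← hnn π,
        w_two] at h5
      exact h5
    · have hpq := pq_symm j hp h3
      have h5 := map_dvd j (Pool.Agent.Y715.T.RecG.cs_spec hpq.prime hpq.norm (hnd π x hd))
      have h6 : (w : Ei) ^ (cs (j.symm π) (j.symm x)).val =
          ((w : Ei) ^ 2) ^ (-1 * cs (j.symm π) (j.symm x)).val := by
        rw [w_two, neg_one_mul, neg_neg]
      rw [h6, map_sub, map_pow, map_pow, RingEquiv.apply_symm_apply, RingEquiv.apply_symm_apply,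
        hnn π, ← sub_eq_zero.1 h4] at h5
      exact h5

/-- a factorization -/
theorem fact_of (hj : ∀ z : Ei, Algebra.norm ℤ (j z) = nr z) {D : 𝓞 K}
    (h3 : (3 : 𝓞 K) ∣ D - 1) (hcf : ∀ x : 𝓞 K, x ^ 3 ∣ D → IsUnit x) :
    ∃ (ω : 𝓞 K) (n : ℕ) (π : Fin n → 𝓞 K) (e : Fin n → ZMod 3) (χ : Fin n → Fin n → ZMod 3),
      ω ^ 2 + ω + 1 = 0 ∧ IsFactE ω D n π e χ := by
  have h3' : (3 : Ei) ∣ j.symm D - 1 := three_dvd_symm j h3
  have hcf' : Pool.Agent.Y715.T.Gi.CF (j.symm D) := by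
    rw [← Pool.Agent.R419.KF.cf_iff j, RingEquiv.apply_symm_apply]
    refine ⟨fun h0 => ?_, hcf⟩
    have h1 : D = 0 := by rw [← j.apply_symm_apply D, h0, map_zero]
    rw [h1] at hcf
    exact not_isUnit_zero (hcf 0 (dvd_zero _))
  obtain ⟨M, S, hS, hM, hel⟩ := ex_pair h3' hcf'
  obtain ⟨n, hn⟩ : ∃ n, S.card = n := ⟨_, rfl⟩
  set eq : S ≃ Fin n := S.equivFinOfCardEq hn with heq
  set π : Fin n → Ei := fun i => (eq.symm i : Ei) with hπ
  have hmem : ∀ i, π i ∈ S := fun i => (eq.symm i).2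
  have hinj : Function.Injective π := fun a b hab => eq.symm.injective (Subtype.ext hab)
  have himg : Finset.univ.image π = S := by
    ext q
    rw [mem_image]
    constructor
    · rintro ⟨i, -, rfl⟩
      exact hmem i
    · intro hq
      refine ⟨eq ⟨q, hq⟩, mem_univ _, ?_⟩
      simp [hπ]
  have hdt : Dt π (fun i => wt M (π i)) := by
    refine ⟨fun i => hS _ (hmem i), fun i k hij hd => ?_, fun i => wt_ne M _⟩
    exact hij (hinj (eq_of_dvd (hS _ (hmem k)) (hS _ (hmem i)) hd)).symm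
  have hpD : el M S = pD π (fun i => wt M (π i)) := by
    unfold pD el
    have h2 : ∏ q ∈ S, q ^ (wt M q).val = ∏ i, π i ^ (wt M (π i)).val := by
      rw [← himg, prod_image fun a _ b _ h => hinj h]
    rw [← h2]
    have h4 : ∏ q ∈ M, q = ∏ q ∈ S, if q ∈ M then q else 1 := by
      rw [prod_ite_mem, inter_eq_right.2 hM]
    rw [h4, ← prod_mul_distrib]
    refine prod_congr rfl fun q _ => ?_
    unfold wt
    split_ifs with hq
    · have : (2 : ZMod 3).val = 2 := by decide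
      rw [this, pow_two]
    · have : (1 : ZMod 3).val = 1 := by decide
      rw [this, pow_one, mul_one]
  obtain ⟨ω, χ, h1, h2⟩ := Pool.Agent.R419.KF.fact_ex j hj hdt
  rw [← hpD, ← hel, RingEquiv.apply_symm_apply] at h2
  exact ⟨ω, _, _, _, χ, h1, h2⟩

variable {ω D : 𝓞 K} {n : ℕ} {π : Fin n → 𝓞 K} {e : Fin n → ZMod 3} {χ : Fin n → Fin n → ZMod 3}

/-- the matrix in terms of the given symbols -/
theorem mat_eq {ε : ZMod 3} (heps : ∀ (π x : 𝓞 K) (c : ZMod 3), Prime π → (3 : 𝓞 K) ∣ π - 1 →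
      π ∣ x ^ (((Algebra.norm ℤ π).natAbs - 1) / 3) - ω ^ c.val →
        cs (j.symm π) (j.symm x) = ε * c) (h : IsFactE ω D n π e χ) :
    mat (fun i => j.symm (π i)) e = ε • lapl e χ :=
  lapl_smul fun i k hik => heps (π k) (π i) (χ k i) (h.1 k).1 (h.1 k).2.1 (h.2.2 i k hik).2

/-- **The criterion for one new prime.** -/
theorem crit_K (hj : ∀ z : Ei, Algebra.norm ℤ (j z) = nr z) (hω : ω ^ 2 + ω + 1 = 0)
    (h : IsFactE ω D n π e χ) {ρ : 𝓞 K} (hρ : Prime ρ) (h3 : (3 : 𝓞 K) ∣ ρ - 1)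
    (hnd : ¬ ρ ∣ D) {e' : ZMod 3} (he : e' ≠ 0)
    (h9 : ¬ (9 : ℤ) ∣ Algebra.norm ℤ (D * ρ ^ e'.val) - 1) :
    ∃ χ' : Fin n → ZMod 3,
      (∀ k, π k ∣ ρ ^ (((Algebra.norm ℤ (π k)).natAbs - 1) / 3) - ω ^ (χ' k).val) ∧
      (∀ k, ρ ∣ (π k) ^ (((Algebra.norm ℤ ρ).natAbs - 1) / 3) - ω ^ (χ' k).val) ∧
      (Tri (D * ρ ^ e'.val) ↔ (lapl e χ - Matrix.diagonal fun k => e' * χ' k).det ≠ 0) := by
  obtain ⟨ε, hε, he1, he2⟩ := eps j hj hω
  obtain ⟨hdt, hpD⟩ := Pool.Agent.R419.KF.fact_dt j h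
  have hρq := pq_symm j hρ h3
  have hndi : ∀ k, ¬ ρ ∣ π k := by
    intro k hk
    apply hnd
    rw [h.2.1]
    refine (hk.trans (dvd_pow_self _ ?_)).trans (Finset.dvd_prod_of_mem _ (mem_univ k))
    have h1 := (h.1 k).2.2
    intro h2
    exact h1 ((ZMod.val_eq_zero _).1 h2)
  have hndj : ∀ k, ¬ j.symm ρ ∣ j.symm (π k) := fun k hk => hndi k ((map_dvd_iff j.symm).1 hk)
  have hnd' : ∀ k, ¬ π k ∣ ρ := by
    intro k hk
    have h1 : j.symm (π k) ∣ j.symm ρ := map_dvd j.symm hk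
    have h2 := eq_of_dvd (hdt.pq k) hρq h1
    exact hndj k (by rw [h2])
  have hrec : ∀ k, cs (j.symm ρ) (j.symm (π k)) = cs (j.symm (π k)) (j.symm ρ) := fun k =>
    rec_all _ _ (hdt.pq k) hρq (hndj k)
  refine ⟨fun k => ε * cs (j.symm ρ) (j.symm (π k)), fun k => ?_, fun k => ?_, ?_⟩
  · have h5 := he2 (π k) ρ (h.1 k).1 (h.1 k).2.1 (hnd' k)
    rw [← hrec k] at h5
    exact h5
  · exact he2 ρ (π k) hρ h3 (hndi k)
  · have h9' : ¬ (9 : ℤ) ∣ nr (pD (fun i => j.symm (π i)) e * (j.symm ρ) ^ e'.val) - 1 := by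
      rw [hpD, ← map_pow, ← map_mul, ← hj, RingEquiv.apply_symm_apply]
      exact h9
    have h6 := tri_po j hdt hρq hndj he h9'
    rw [hpD, ← map_pow, ← map_mul, RingEquiv.apply_symm_apply] at h6
    rw [h6, mat_eq j he1 h]
    have h7 : (ε • lapl e χ - Matrix.diagonal fun i => e' * cs (j.symm ρ) (j.symm (π i))) =
        ε • (lapl e χ - Matrix.diagonal fun k => e' * (ε * cs (j.symm ρ) (j.symm (π k)))) := by
      rw [smul_sub]
      congr 1
      ext a b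
      rw [Matrix.smul_apply, Matrix.diagonal_apply, Matrix.diagonal_apply, smul_eq_mul]
      split_ifs with hab
      · have hε2 : ε * ε = 1 := (by decide : ∀ s : ZMod 3, s ≠ 0 → s * s = 1) ε hε
        linear_combination (-e' * cs (j.symm ρ) (j.symm (π a))) * hε2
      · rw [mul_zero]
    rw [h7, Matrix.det_smul, Fintype.card_fin]
    exact ⟨fun h1 h2 => h1 (by rw [h2, mul_zero]), fun h1 => mul_ne_zero (pow_ne_zero _ hε) h1⟩

/-- the law for the twist -/
theorem law_K [IsCyclotomicExtension {3} ℚ K] (hj : ∀ z : Ei, Algebra.norm ℤ (j z) = nr z)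
    (h : IsFactE ω D n π e χ) {ρ : 𝓞 K} (hρ : Prime ρ) (h3 : (3 : 𝓞 K) ∣ ρ - 1)
    (hnd : ¬ ρ ∣ D) {e' : ZMod 3} (he : e' ≠ 0)
    (h9 : ¬ (9 : ℤ) ∣ Algebra.norm ℤ (D * ρ ^ e'.val) - 1) : Law3 (D * ρ ^ e'.val) := by
  obtain ⟨hdt, hpD⟩ := Pool.Agent.R419.KF.fact_dt j h
  have hρq := pq_symm j hρ h3
  have hndi : ∀ k, ¬ ρ ∣ π k := by
    intro k hk
    apply hnd
    rw [h.2.1]
    refine (hk.trans (dvd_pow_self _ ?_)).trans (Finset.dvd_prod_of_mem _ (mem_univ k))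
    have h1 := (h.1 k).2.2
    intro h2
    exact h1 ((ZMod.val_eq_zero _).1 h2)
  have hndj : ∀ k, ¬ j.symm ρ ∣ j.symm (π k) := fun k hk => hndi k ((map_dvd_iff j.symm).1 hk)
  have h9' : ¬ (9 : ℤ) ∣ nr (pD (fun i => j.symm (π i)) e * (j.symm ρ) ^ e'.val) - 1 := by
    rw [hpD, ← map_pow, ← map_mul, ← hj, RingEquiv.apply_symm_apply]
    exact h9
  have h6 := law_po j hdt hρq hndj he h9'
  rw [hpD, ← map_pow, ← map_mul, RingEquiv.apply_symm_apply] at h6
  exact h6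

end

end T2h16.TE
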